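import Mathlib
import Pool.Agent.PTH.Final
import Pool.Agent.PAN.Asm

/-!
# The generalised Casson conjecture along paths of triangulations

The definitions used in the statement are in the file `Pool/Agent/PTH/Defs.lean`.
-/

open scoped BigOperators

namespace Pool.Agent.Results.MP_7b8e17_gt.PachnerPath

/-- **Path theorem.** Let `X = (T₀, s)`, ..., `Y = (T_k, s)` be triangulations with `m` closed normal
curves, in which consecutive triangulations differ by a renaming, a 2-3 move or a 3-2 move, the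
curves corresponding to each other, and have angle structures (without slope condition). If the
volume functional has a maximum `α₀` on the angle structures of `(T₀, s)`, then
there are real numbers `c₁, ..., c_m` with `V(β) ≤ V(α₀) + ∑ c_k (hol_k(β) - 2π)` for all angle
structures `β` of `T_k`. In particular `V(β) ≤ V(α₀)` for all angle structures `β` of `(T_k, s)`,
where `V(α₀)` is the volume of `M(s)`, by the theorem of Casson and Rivin. -/
theorem result (m : ℕ) (X Y : PTH.Cusped m)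
    (hXY : Relation.ReflTransGen PTH.PathStep X Y)
    (α₀ : X.ι → Fin 3 → ℝ) (h₀ : α₀ ∈ X.AngS)
    (hmax : ∀ α ∈ X.AngS, PTH.Vol α ≤ PTH.Vol α₀) :
    ∃ c : Fin m → ℝ, ∀ β ∈ Y.T.Ang,
      PTH.Vol β ≤ PTH.Vol α₀ + ∑ k, c k * ((Y.γ k).hol β - 2 * Real.pi) :=
  PTH.path_main Pool.Agent.PAN.sgN Pool.Agent.PAN.sZ2 Pool.Agent.PAN.thm_CS
    Pool.Agent.PAN.sJ3 Pool.Agent.PAN.sJ4 hXY h₀ hmax

/-- The corollary for the angle structures of `(T_k, s)`. -/
theorem slope_case (m : ℕ) (X Y : PTH.Cusped m)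
    (hXY : Relation.ReflTransGen PTH.PathStep X Y)
    (α₀ : X.ι → Fin 3 → ℝ) (h₀ : α₀ ∈ X.AngS)
    (hmax : ∀ α ∈ X.AngS, PTH.Vol α ≤ PTH.Vol α₀) :
    ∀ β ∈ Y.AngS, PTH.Vol β ≤ PTH.Vol α₀ := by
  obtain ⟨c, hc⟩ := result m X Y hXY α₀ h₀ hmax
  intro β hβ
  have h1 := hc β hβ.1
  have h2 : ∑ k, c k * ((Y.γ k).hol β - 2 * Real.pi) = 0 :=
    Finset.sum_eq_zero fun k _ => by rw [hβ.2 k, sub_self, mul_zero]
  linarith

end Pool.Agent.Results.MP_7b8e17_gt.PachnerPath
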